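import Pool.Agent.Y466.TW.Stm

/-!
# TW-CONGA: congruence of integer matrices over different index sets
(helper259, for project TW of helper466)
-/

set_option autoImplicit false

namespace Pool.Agent.Y259.TW

open Matrix
open Pool.Agent.Y466.TW

theorem cong_trans {α β γ : Type} [Fintype α] [DecidableEq α] [Fintype β] [DecidableEq β]
    [Fintype γ] [DecidableEq γ] {G : Matrix α α ℤ} {G' : Matrix β β ℤ} {G'' : Matrix γ γ ℤ}
    (h : Cong G G') (h' : Cong G' G'') : Cong G G'' := by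
  obtain ⟨Q, R, h1, h2, h3⟩ := h
  obtain ⟨Q', R', h1', h2', h3'⟩ := h'
  refine ⟨Q * Q', R' * R, ?_, ?_, ?_⟩
  · calc Q * Q' * (R' * R) = Q * (Q' * R') * R := by simp only [Matrix.mul_assoc]
      _ = 1 := by rw [h1', Matrix.mul_one, h1]
  · calc R' * R * (Q * Q') = R' * (R * Q) * Q' := by simp only [Matrix.mul_assoc]
      _ = 1 := by rw [h2, Matrix.mul_one, h2']
  · rw [transpose_mul, ← h3', ← h3]
    simp only [Matrix.mul_assoc]

theorem cong_sub {α β : Type} [Fintype α] [DecidableEq α] [Fintype β] [DecidableEq β]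
    (G : Matrix α α ℤ) (e : β ≃ α) : Cong G (G.submatrix e e) := by
  have h1 : (1 : Matrix α α ℤ).submatrix id e * (1 : Matrix α α ℤ).submatrix e id = 1 := by
    rw [submatrix_mul_equiv, Matrix.one_mul]
    rfl
  have h2 : (1 : Matrix α α ℤ).submatrix e id * (1 : Matrix α α ℤ).submatrix id e = 1 := by
    rw [← submatrix_mul _ _ e id e Function.bijective_id, Matrix.one_mul, submatrix_one_equiv]
  refine ⟨(1 : Matrix α α ℤ).submatrix id e, (1 : Matrix α α ℤ).submatrix e id, h1, h2, ?_⟩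
  rw [transpose_submatrix, transpose_one]
  ext i j
  simp only [mul_apply, submatrix_apply, one_apply, id]
  simp

theorem cong_sub' {α β : Type} [Fintype α] [DecidableEq α] [Fintype β] [DecidableEq β]
    (G : Matrix α α ℤ) (e : β ≃ α) : Cong (G.submatrix e e) G := by
  have h := cong_sub (G.submatrix e e) e.symm
  rw [submatrix_submatrix, Equiv.self_comp_symm] at h
  exact h

theorem cong_blocks {α β γ δ : Type} [Fintype α] [DecidableEq α] [Fintype β] [DecidableEq β]
    [Fintype γ] [DecidableEq γ] [Fintype δ] [DecidableEq δ] {G : Matrix α α ℤ} {G' : Matrix β β ℤ}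
    {G₁ : Matrix γ γ ℤ} {G₁' : Matrix δ δ ℤ} (h : Cong G G') (h' : Cong G₁ G₁') :
    Cong (fromBlocks G 0 0 G₁) (fromBlocks G' 0 0 G₁') := by
  obtain ⟨Q, R, h1, h2, h3⟩ := h
  obtain ⟨Q', R', h1', h2', h3'⟩ := h'
  refine ⟨fromBlocks Q 0 0 Q', fromBlocks R 0 0 R', ?_, ?_, ?_⟩
  · rw [fromBlocks_multiply]
    simp only [Matrix.mul_zero, Matrix.zero_mul, add_zero, zero_add, h1, h1', fromBlocks_one]
  · rw [fromBlocks_multiply]
    simp only [Matrix.mul_zero, Matrix.zero_mul, add_zero, zero_add, h2, h2', fromBlocks_one]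
  · rw [fromBlocks_transpose, fromBlocks_multiply, fromBlocks_multiply]
    simp only [Matrix.mul_zero, Matrix.zero_mul, add_zero, zero_add, transpose_zero, h3, h3']

theorem sp_blocks {ι κ : Type} [Fintype ι] [DecidableEq ι] [Fintype κ] [DecidableEq κ]
    {σ : Matrix ι ι ℤ} {τ : Matrix κ κ ℤ} (h : SP σ) (h' : SP τ) : SP (fromBlocks σ 0 0 τ) := by
  obtain ⟨α, i1, i2, h1⟩ := h
  obtain ⟨β, i3, i4, h2⟩ := h'
  refine ⟨α ⊕ β, inferInstance, inferInstance, ?_⟩
  refine cong_trans (cong_blocks h1 h2) ?_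
  have h3 := cong_sub (fromBlocks (Pool.Agent.Y466.TW.J α) 0 0 (Pool.Agent.Y466.TW.J β)) (Equiv.sumSumSumComm α β α β)
  convert h3 using 1
  ext i j
  rcases i with (i | i) | (i | i) <;> rcases j with (j | j) | (j | j) <;>
    simp [Pool.Agent.Y466.TW.J, Equiv.sumSumSumComm, one_apply]

theorem elim {α β : Type} [Fintype α] [DecidableEq α] [Fintype β] [DecidableEq β]
    (G : Matrix α α ℤ) (G' : Matrix β β ℤ) (s u : α → ℤ) (t : β → ℤ) (hG : Gᵀ = G)
    (hs : G *ᵥ u = s) (hu : u ⬝ᵥ s = 0) :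
    Cong (fromBlocks G (vecMulVec s t) (vecMulVec t s) G') (fromBlocks G 0 0 G') := by
  refine ⟨fromBlocks 1 (-(vecMulVec u t)) 0 1, fromBlocks 1 (vecMulVec u t) 0 1, ?_, ?_, ?_⟩
  · rw [fromBlocks_multiply]
    simp
  · rw [fromBlocks_multiply]
    simp
  · have e1 : G * vecMulVec u t = vecMulVec s t := by
      rw [mul_vecMulVec, hs]
    have e2 : vecMulVec t u * G = vecMulVec t s := by
      rw [vecMulVec_mul, ← mulVec_transpose, hG, hs]
    have e3 : vecMulVec t s * vecMulVec u t = 0 := by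
      rw [vecMulVec_mul_vecMulVec, dotProduct_comm, hu]
      simp
    have e4 : vecMulVec t u * vecMulVec s t = 0 := by
      rw [vecMulVec_mul_vecMulVec, hu]
      simp
    have e5 : (vecMulVec u t)ᵀ = vecMulVec t u := transpose_vecMulVec u t
    rw [fromBlocks_transpose, fromBlocks_multiply, fromBlocks_multiply]
    simp only [transpose_one, transpose_zero, transpose_neg, e5, Matrix.one_mul, Matrix.mul_one,
      Matrix.zero_mul, Matrix.mul_zero, add_zero, Matrix.neg_mul, Matrix.mul_neg, e1, e2, e3, e4,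
      Matrix.add_mul, neg_add_cancel, neg_zero, zero_add, neg_neg]

theorem conga : CONGA := by
  refine ⟨?_, ?_, ?_, ?_, ?_⟩
  · intro α β γ _ _ _ _ _ _ G G' G'' h h'
    exact cong_trans h h'
  · intro α β _ _ _ _ G e
    exact ⟨cong_sub G e, cong_sub' G e⟩
  · intro α β γ δ _ _ _ _ _ _ _ _ G G' G₁ G₁' h h'
    exact cong_blocks h h'
  · intro ι κ _ _ _ _ σ τ h h'
    exact sp_blocks h h'
  · intro α β _ _ _ _ G G' s u t hG hs hu
    exact elim G G' s u t hG hs hu

end Pool.Agent.Y259.TW
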